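import Pool.Agent.K3h83.IN.Stm6
import Pool.Agent.K3h85.IN.M2
import Pool.Agent.V11211.Trace
import Pool.Agent.Helper884.IC.Compl
import Pool.Agent.H254R3.IN.Chars

/-!
# Traces of the irreducible representations over a field
-/

set_option autoImplicit false

open scoped BigOperators Classical

noncomputable section

namespace Pool.Agent.K3h25.CY

/-- the traces of the irreducible representations -/
def TF (k G : Type) [Field k] [Group G] : Set (G → k) :=
  {t | ∃ (V : Type) (_ : AddCommGroup V) (_ : Module k V) (_ : FiniteDimensional k V)
    (ρ : Representation k G V), ρ.IsIrreducible ∧ t = fun g => LinearMap.trace k V (ρ g)}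

theorem exists_proper {k G V : Type} [Field k] [Group G] [AddCommGroup V] [Module k V]
    (ρ : Representation k G V) (h : ¬ ρ.IsIrreducible) (hV : Nontrivial V) :
    ∃ W : Submodule k V, (∀ g, W ≤ W.comap (ρ g)) ∧ W ≠ ⊥ ∧ W ≠ ⊤ := by
  by_contra hcon
  push Not at hcon
  apply h
  haveI : Nontrivial (Subrepresentation ρ) := by
    refine ⟨⟨⊥, ⊤, fun h0 => ?_⟩⟩
    obtain ⟨v, hv⟩ := exists_ne (0 : V)
    have h1 : v ∈ (⊤ : Subrepresentation ρ).toSubmodule := trivial
    rw [← h0] at h1
    exact hv h1
  refine ⟨fun W => ?_⟩
  by_cases hW : W.toSubmodule = ⊥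
  · left
    exact Subrepresentation.toSubmodule_injective hW
  · right
    exact Subrepresentation.toSubmodule_injective
      (hcon W.toSubmodule (fun g v hv => W.apply_mem_toSubmodule g hv) hW)

theorem span_TF {k G : Type} [Field k] [Group G] : ∀ (N : ℕ) (V : Type) [AddCommGroup V]
    [Module k V] [FiniteDimensional k V] (ρ : Representation k G V), Module.finrank k V = N →
    (fun g => LinearMap.trace k V (ρ g)) ∈ Submodule.span k (TF k G) := by
  intro N
  induction N using Nat.strong_induction_on with
  | _ N ih =>
    intro V _ _ _ ρ hN
    by_cases hirr : ρ.IsIrreducible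
    · exact Submodule.subset_span ⟨V, _, _, inferInstance, ρ, hirr, rfl⟩
    by_cases hV : Nontrivial V
    · obtain ⟨W, hW, hW0, hW1⟩ := exists_proper ρ hirr hV
      have h1 : Module.finrank k W < N := by
        rw [← hN]
        exact Submodule.finrank_lt hW1
      have h2 : Module.finrank k (V ⧸ W) < N := by
        have h3 := Submodule.finrank_quotient_add_finrank W
        have h4 : 0 < Module.finrank k W := by
          haveI := (Submodule.nontrivial_iff_ne_bot (p := W)).mpr hW0
          exact Module.finrank_pos
        omega
      have h3 := ih _ h1 W (ρ.subrepresentation W hW) rfl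
      have h4 := ih _ h2 (V ⧸ W) (ρ.quotient W hW) rfl
      have h5 : (fun g => LinearMap.trace k V (ρ g)) =
          (fun g => LinearMap.trace k W (ρ.subrepresentation W hW g)) +
            fun g => LinearMap.trace k (V ⧸ W) (ρ.quotient W hW g) := by
        funext g
        exact Pool.Agent.V11211.trace_eq_add W (ρ g) (hW g)
      rw [h5]
      exact Submodule.add_mem _ h3 h4
    · rw [not_nontrivial_iff_subsingleton] at hV
      have h5 : (fun g => LinearMap.trace k V (ρ g)) = 0 := by
        funext g
        have : ρ g = 0 := Subsingleton.elim _ _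
        rw [this, map_zero]
        rfl
      rw [h5]
      exact Submodule.zero_mem _

/-- transfer to `Fin n → k` -/
theorem toFin {k G : Type} [Field k] [Group G] {t : G → k} (ht : t ∈ TF k G) :
    ∃ (n : ℕ) (ρ : Representation k G (Fin n → k)), ρ.IsIrreducible ∧
      t = fun g => LinearMap.trace k _ (ρ g) := by
  obtain ⟨V, _, _, _, ρ, hρ, rfl⟩ := ht
  let e : V ≃ₗ[k] (Fin (Module.finrank k V) → k) := (Module.finBasis k V).equivFun
  let ρ' : Representation k G (Fin (Module.finrank k V) → k) :=
    { toFun := fun g => e.conj (ρ g)
      map_one' := by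
        rw [map_one]
        exact LinearEquiv.conj_id e
      map_mul' := fun a b => by
        rw [map_mul]
        exact LinearEquiv.conj_comp e (ρ b) (ρ a) }
  have hρ' : ∀ g v, ρ' g (e v) = e (ρ g v) := by
    intro g v
    change e.conj (ρ g) (e v) = _
    rw [LinearEquiv.conj_apply_apply, LinearEquiv.symm_apply_apply]
  refine ⟨Module.finrank k V, ρ', ?_, ?_⟩
  · haveI : Nontrivial (Subrepresentation ρ') := by
      refine ⟨⟨⊥, ⊤, fun h0 => ?_⟩⟩
      have hnt : Nontrivial V := by
        by_contra hn
        rw [not_nontrivial_iff_subsingleton] at hn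
        have : Subsingleton (Subrepresentation ρ) := by
          constructor
          intro a b
          ext x
          have : x = 0 := Subsingleton.elim _ _
          subst this
          simp
        exact not_subsingleton (Subrepresentation ρ) this
      obtain ⟨v, hv⟩ := exists_ne (0 : V)
      have h1 : e v ∈ (⊤ : Subrepresentation ρ').toSubmodule := trivial
      rw [← h0] at h1
      have h2 : e v = 0 := h1
      exact hv (e.map_eq_zero_iff.mp h2)
    refine ⟨fun W => ?_⟩
    let W' : Subrepresentation ρ :=
      { toSubmodule := W.toSubmodule.comap e.toLinearMap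
        apply_mem_toSubmodule := by
          intro g x hx
          change e (ρ g x) ∈ W.toSubmodule
          rw [← hρ']
          exact W.apply_mem_toSubmodule g hx }
    rcases hρ.eq_bot_or_eq_top W' with h | h
    · left
      refine Subrepresentation.toSubmodule_injective ?_
      change W.toSubmodule = ⊥
      rw [Submodule.eq_bot_iff]
      intro x hx
      have h1 : e.symm x ∈ W'.toSubmodule := by
        change e (e.symm x) ∈ W.toSubmodule
        rwa [LinearEquiv.apply_symm_apply]
      rw [h] at h1
      have h2 : e.symm x = 0 := h1
      exact e.symm.map_eq_zero_iff.mp h2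
    · right
      refine Subrepresentation.toSubmodule_injective ?_
      change W.toSubmodule = ⊤
      rw [Submodule.eq_top_iff']
      intro x
      have h1 : e.symm x ∈ W'.toSubmodule := by
        rw [h]
        trivial
      have h2 : e (e.symm x) ∈ W.toSubmodule := h1
      rwa [LinearEquiv.apply_symm_apply] at h2
  · funext g
    exact (LinearMap.trace_conj' (ρ g) e).symm

/-- isomorphic representations have the same trace -/
theorem nonIso {k G V V' : Type} [Field k] [Group G] [AddCommGroup V] [Module k V]
    [AddCommGroup V'] [Module k V'] (ρ : Representation k G V) (ρ' : Representation k G V')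
    (h : (fun g => LinearMap.trace k V (ρ g)) ≠ fun g => LinearMap.trace k V' (ρ' g)) :
    Pool.Agent.K3h83.IN.NonIso ρ ρ' := by
  rintro ⟨e, he⟩
  apply h
  funext g
  have h3 : ρ' g = e.conj (ρ g) := by
    refine LinearMap.ext fun w => ?_
    obtain ⟨v, rfl⟩ := e.surjective w
    rw [LinearEquiv.conj_apply_apply, LinearEquiv.symm_apply_apply]
    exact (he g v).symm
  rw [h3, LinearMap.trace_conj']

end Pool.Agent.K3h25.CY
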