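import Pool.Agent.K3h25.CY.A

/-!
# The number of irreducible modular representations (lower bound)
-/

set_option autoImplicit false
set_option linter.style.haveILetI false

open scoped BigOperators Classical

noncomputable section

namespace Pool.Agent.K3h25.CY

open Pool.Agent.Helper884 Pool.Agent.K3h83.IN
open Pool.Agent.H254R3.IN (IsIrr mem_Irr RF red irr_nontrivial red_of_mem red_mul red_sum red_natCast
  red_nat_eq_zero_iff charP_RF mem_of_isIntegral card_class_mul)
open Pool.Agent.K3h85.IN (lat rF rF_apply)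
open IC (Irr)

/-- the reduction of a character is a combination of traces -/
theorem red_char {G : Type} [Group G] [Finite G] (O : ValuationSubring ℂ) {χ : G → ℂ}
    (h : IsIrr χ) : (fun g => red O (χ g)) ∈ Submodule.span (RF O) (TF (RF O) G) := by
  obtain ⟨V, _, _, _, ρ, hr, rfl⟩ := h
  obtain ⟨n, B, S, hS⟩ := lat O ρ hr
  have h1 : (fun g => red O (ρ.character g)) =
      fun g => LinearMap.trace (RF O) _ (rF S g) := by
    funext g
    have h2 : ρ.character g = ((S g).trace : O) := by
      rw [Representation.character, LinearMap.trace_eq_matrix_trace ℂ B, hS]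
      change _ = algebraMap O ℂ _
      rw [Matrix.trace, Matrix.trace, map_sum]
      rfl
    rw [h2, red_of_mem (Subtype.mem _), rF_apply,
      LinearMap.trace_eq_matrix_trace (RF O) (Pi.basisFun (RF O) (Fin n)),
      LinearMap.toMatrix_eq_toMatrix', LinearMap.toMatrix'_toLin']
    change IsLocalRing.residue O (S g).trace = _
    rw [Matrix.trace, Matrix.trace, map_sum]
    rfl
  rw [h1]
  exact span_TF _ _ _ rfl

/-- integrality of the trace of an operator with `T ^ (m + 1) = T` -/
theorem integral_trace {V : Type} [AddCommGroup V] [Module ℂ V] [FiniteDimensional ℂ V]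
    (T : Module.End ℂ V) (m : ℕ) (hT : T ^ (m + 2) = T) :
    IsIntegral ℤ (LinearMap.trace ℂ V T) := by
  rw [Module.End.trace_eq_sum_roots_charpoly_of_splits (IsAlgClosed.splits _)]
  have key : ∀ μ ∈ (LinearMap.charpoly T).roots, IsIntegral ℤ μ := by
    intro μ hμ
    have h1 : (LinearMap.charpoly T).IsRoot μ := (Polynomial.mem_roots'.mp hμ).2
    have h2 := (Module.End.hasEigenvalue_iff_isRoot_charpoly T μ).mpr h1
    obtain ⟨v, hv⟩ := h2.exists_hasEigenvector
    have h3 : ∀ n : ℕ, (T ^ n) v = μ ^ n • v := fun n => by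
      induction n with
      | zero => simp
      | succ n ih =>
        rw [pow_succ', Module.End.mul_apply, ih, map_smul, hv.apply_eq_smul, smul_smul, pow_succ]
    have h4 := h3 (m + 2)
    rw [hT, hv.apply_eq_smul] at h4
    have h5 : μ ^ (m + 2) - μ = 0 := by
      have h6 : (μ ^ (m + 2) - μ) • v = 0 := by
        rw [sub_smul, ← h4, sub_self]
      rcases smul_eq_zero.mp h6 with h7 | h7
      · exact h7
      · exact absurd h7 hv.2
    refine ⟨Polynomial.X ^ (m + 2) - Polynomial.X, ?_, ?_⟩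
    · exact Polynomial.monic_X_pow_sub (n := m + 2) (p := Polynomial.X) (by
        rw [Polynomial.degree_X]
        exact_mod_cast (by omega : 1 < m + 2))
    · simpa using h5
  generalize (LinearMap.charpoly T).roots = s at key
  induction s using Multiset.induction_on with
  | empty => simpa using isIntegral_zero
  | cons a s ih =>
    rw [Multiset.sum_cons]
    exact (key a (Multiset.mem_cons_self a s)).add
      (ih (fun μ hμ => key μ (Multiset.mem_cons_of_mem hμ)))

/-- the average over the coset -/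
def cf {G : Type} [Group G] [Fintype G] (R : Subgroup G) (g : G) (χ : G → ℂ) : ℂ :=
  (Nat.card R : ℂ)⁻¹ * ∑ v : R, χ (g * v)⁻¹

theorem cf_integral {G : Type} [Group G] [Fintype G] (R : Subgroup G) (g : G)
    (hR : ∀ v ∈ R, v * g = g * v) {χ : G → ℂ} (h : IsIrr χ) : IsIntegral ℤ (cf R g χ) := by
  obtain ⟨V, _, _, _, ρ, hr, rfl⟩ := h
  have hc0 : (Nat.card R : ℂ) ≠ 0 := by exact_mod_cast Nat.card_pos.ne'
  set e : Module.End ℂ V := (Nat.card R : ℂ)⁻¹ • ∑ v : R, ρ (v : G)⁻¹ with he
  have h1 : e * e = e := by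
    have h2 : ∀ w : R, ρ (w : G)⁻¹ * (∑ v : R, ρ (v : G)⁻¹) = ∑ v : R, ρ (v : G)⁻¹ := by
      intro w
      rw [Finset.mul_sum]
      refine Fintype.sum_equiv (Equiv.mulRight w) _ _ fun v => ?_
      rw [← map_mul, Equiv.coe_mulRight, Subgroup.coe_mul, mul_inv_rev]
    rw [he, smul_mul_smul_comm, Finset.sum_mul, Finset.sum_congr rfl fun w _ => h2 w,
      Finset.sum_const, Finset.card_univ, ← Nat.card_eq_fintype_card, ← Nat.cast_smul_eq_nsmul ℂ,
      smul_smul]
    congr 1
    field_simp
  have h3 : Commute e (ρ g⁻¹) := by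
    rw [he]
    refine Commute.smul_left ?_ _
    refine Commute.sum_left _ _ _ fun v _ => ?_
    change ρ _ * ρ _ = ρ _ * ρ _
    rw [← map_mul, ← map_mul, ← mul_inv_rev, ← mul_inv_rev, hR v v.2]
  have h4 : (e * ρ g⁻¹) ^ (orderOf g - 1 + 2) = e * ρ g⁻¹ := by
    have h5 : orderOf g - 1 + 2 = orderOf g + 1 := by
      have := orderOf_pos g
      omega
    have h6 : ∀ k : ℕ, e ^ (k + 1) = e := by
      intro k
      induction k with
      | zero => rw [zero_add, pow_one]
      | succ k ih => rw [pow_succ, ih, h1]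
    rw [h5, h3.mul_pow, h6, ← map_pow, inv_pow, pow_succ, pow_orderOf_eq_one, one_mul]
  have h7 := integral_trace _ _ h4
  have h8 : cf R g ρ.character = LinearMap.trace ℂ V (e * ρ g⁻¹) := by
    rw [he, smul_mul_assoc, map_smul, smul_eq_mul, Finset.sum_mul, map_sum]
    unfold cf
    congr 1
    refine Finset.sum_congr rfl fun v _ => ?_
    rw [← map_mul, ← mul_inv_rev]
    rfl
  rw [h8]
  exact h7

/-- the class function -/
def Th {G : Type} [Group G] [Fintype G] (R : Subgroup G) (g : G) (y : G) : ℂ :=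
  (Nat.card R : ℂ)⁻¹ * ∑ v : R, if IsConj (g * v) y then
    (Nat.card (Subgroup.centralizer ({g * (v : G)} : Set G)) : ℂ) else 0

theorem Th_class {G : Type} [Group G] [Fintype G] (R : Subgroup G) (g : G) :
    IC.IsClass (Th R g) := by
  intro x y
  unfold Th
  congr 1
  refine Finset.sum_congr rfl fun v _ => ?_
  have h1 : IsConj (g * (v : G)) (y * x * y⁻¹) ↔ IsConj (g * (v : G)) x := by
    have h2 : IsConj x (y * x * y⁻¹) := isConj_iff.mpr ⟨y, rfl⟩
    exact ⟨fun h => h.trans h2.symm, fun h => h.trans h2⟩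
  simp only [h1]

theorem B_Th {G : Type} [Group G] [Fintype G] (R : Subgroup G) (g : G) {χ : G → ℂ}
    (h : IsIrr χ) : IC.B (Th R g) χ = cf R g χ := by
  unfold IC.B Th cf
  simp only [mul_assoc, Finset.sum_mul]
  rw [← Finset.mul_sum, mul_left_comm, Finset.sum_comm]
  congr 1
  rw [Finset.mul_sum]
  refine Finset.sum_congr rfl fun v _ => ?_
  have h1 : ∀ y : G, (if IsConj (g * (v : G)) y then
      (Nat.card (Subgroup.centralizer ({g * (v : G)} : Set G)) : ℂ) else 0) * χ y⁻¹ =
      if IsConj (g * (v : G)) y then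
      (Nat.card (Subgroup.centralizer ({g * (v : G)} : Set G)) : ℂ) * χ (g * v)⁻¹ else 0 := by
    intro y
    split_ifs with h2
    · have h3 : IsConj (g * (v : G))⁻¹ y⁻¹ := by
        obtain ⟨c, rfl⟩ := isConj_iff.mp h2
        rw [isConj_iff]
        exact ⟨c, by group⟩
      rw [h.isConj h3]
    · rw [zero_mul]
  rw [Finset.sum_congr rfl fun y _ => h1 y, ← Finset.sum_filter, Finset.sum_const, nsmul_eq_mul]
  have h4 := card_class_mul (g * (v : G))
  have h5 : (Finset.univ.filter fun y : G => IsConj (g * (v : G)) y).card =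
      Nat.card {y : G // IsConj (g * (v : G)) y} := by
    rw [Nat.card_eq_fintype_card, Fintype.card_subtype]
  rw [h5, ← mul_assoc, ← mul_assoc, mul_assoc (Nat.card G : ℂ)⁻¹, ← Nat.cast_mul, h4,
    inv_mul_cancel₀ (by exact_mod_cast Nat.card_pos.ne'), one_mul]

theorem exists_R (p : ℕ) [Fact p.Prime] {G : Type} [Group G] [Finite G] (g : G) :
    ∃ R : Subgroup G, (∀ v ∈ R, v * g = g * v) ∧ IsPGroup p R ∧ ∃ m : ℕ, ¬ p ∣ m ∧
      Nat.card (Subgroup.centralizer ({g} : Set G)) = Nat.card R * m := by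
  set C := Subgroup.centralizer ({g} : Set G) with hC
  obtain ⟨S⟩ : Nonempty (Sylow p C) := inferInstance
  refine ⟨(S : Subgroup C).map C.subtype, ?_, ?_, (S : Subgroup C).index, ?_, ?_⟩
  · rintro v ⟨w, -, rfl⟩
    have h1 : (w : G) ∈ Subgroup.centralizer ({g} : Set G) := w.2
    rw [Subgroup.mem_centralizer_iff] at h1
    exact (h1 g rfl).symm
  · exact S.isPGroup'.map _
  · exact S.not_dvd_index
  · rw [Subgroup.card_map_of_injective C.subtype_injective, Subgroup.card_mul_index]

/-- the restriction to the `p`-regular elements -/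
theorem Th_reg (p : ℕ) [Fact p.Prime] {G : Type} [Group G] [Fintype G] (R : Subgroup G) (g : G)
    (hR : ∀ v ∈ R, v * g = g * v) (hp : IsPGroup p R) (hg : ¬ p ∣ orderOf g) (m : ℕ)
    (hm : Nat.card (Subgroup.centralizer ({g} : Set G)) = Nat.card R * m) (y : G)
    (hy : ¬ p ∣ orderOf y) : Th R g y = if IsConj g y then (m : ℂ) else 0 := by
  have hc0 : (Nat.card R : ℂ) ≠ 0 := by exact_mod_cast Nat.card_pos.ne'
  unfold Th
  rw [Finset.sum_eq_single (1 : R)]
  · rw [Subgroup.coe_one, mul_one, hm]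
    split_ifs with h
    · push_cast
      field_simp
    · rw [mul_zero]
  · intro v _ hv
    rw [if_neg]
    intro hcon
    apply hv
    have h1 : orderOf (g * (v : G)) = orderOf y := by
      obtain ⟨c, rfl⟩ := isConj_iff.mp hcon
      rw [← MulAut.conj_apply]
      exact (MulEquiv.orderOf_eq (MulAut.conj c) (g * v)).symm
    obtain ⟨k, hk⟩ := hp v
    have h2 : orderOf (v : G) ∣ p ^ k := by
      rw [orderOf_dvd_iff_pow_eq_one]
      exact_mod_cast congrArg Subtype.val hk
    have h3 : (orderOf g).Coprime (orderOf (v : G)) := by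
      refine Nat.Coprime.coprime_dvd_right h2 ?_
      refine Nat.Coprime.pow_right k ?_
      exact ((Nat.Prime.coprime_iff_not_dvd (Fact.out : p.Prime)).mpr hg).symm
    have h4 : Commute g (v : G) := (hR v v.2).symm
    have h5 := h4.orderOf_mul_eq_mul_orderOf_of_coprime h3
    obtain ⟨j, -, hj⟩ := (Nat.dvd_prime_pow (Fact.out : p.Prime)).mp h2
    rcases Nat.eq_zero_or_pos j with h6 | h6
    · rw [h6, pow_zero, orderOf_eq_one_iff] at hj
      exact Subtype.ext hj
    · exfalso
      apply hy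
      rw [← h1, h5, hj]
      exact Dvd.dvd.mul_left (dvd_pow_self p h6.ne') _
  · intro h
    exact absurd (Finset.mem_univ _) h

/-- the indicator functions of the `p`-regular classes -/
theorem ind_mem (p : ℕ) [Fact p.Prime] (O : ValuationSubring ℂ) (hO : (p : ℂ) ∈ O.nonunits)
    {G : Type} [Group G] [Fintype G] (g : G) (hg : ¬ p ∣ orderOf g) :
    ∃ F ∈ Submodule.span (RF O) (TF (RF O) G), ∀ y, ¬ p ∣ orderOf y →
      F y = if IsConj g y then 1 else 0 := by
  obtain ⟨R, hR, hRp, m, hpm, hm⟩ := exists_R p g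
  have hm0 : (m : RF O) ≠ 0 := by
    rw [← red_natCast]
    exact fun h => hpm ((red_nat_eq_zero_iff hO m).mp h)
  have hmemc : ∀ χ ∈ Irr G, cf R g χ ∈ O := fun χ hχ =>
    mem_of_isIntegral (cf_integral R g hR (mem_Irr.mp hχ))
  have hmemχ : ∀ χ ∈ Irr G, ∀ y, χ y ∈ O := fun χ hχ y =>
    (mem_Irr.mp hχ).val_mem O y
  refine ⟨(m : RF O)⁻¹ • ∑ χ ∈ Irr G, red O (cf R g χ) • (fun y => red O (χ y)), ?_, ?_⟩
  · refine Submodule.smul_mem _ _ (Submodule.sum_mem _ fun χ hχ => Submodule.smul_mem _ _ ?_)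
    exact red_char O (mem_Irr.mp hχ)
  · intro y hy
    have h1 := Th_reg p R g hR hRp hg m hm y hy
    have h2 := congrFun (IC.expand (Th R g) (Th_class R g)) y
    rw [Finset.sum_apply, h1] at h2
    have h3 : ∀ χ ∈ Irr G, (IC.B (Th R g) χ • χ) y = cf R g χ * χ y := by
      intro χ hχ
      rw [B_Th R g (mem_Irr.mp hχ)]
      rfl
    rw [Finset.sum_congr rfl h3] at h2
    have h4 := congrArg (red O) h2
    rw [red_sum _ _ fun χ hχ => O.mul_mem _ _ (hmemc χ hχ) (hmemχ χ hχ y),
      Finset.sum_congr rfl fun χ hχ => red_mul (hmemc χ hχ) (hmemχ χ hχ y)] at h4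
    rw [Pi.smul_apply, Finset.sum_apply]
    simp only [Pi.smul_apply, smul_eq_mul]
    rw [← h4]
    split_ifs with h
    · rw [red_natCast, inv_mul_cancel₀ hm0]
    · rw [Pool.Agent.H254R3.IN.red_zero, mul_zero]

theorem t_D3 : D3 := by
  intro p _ O hO G _ _
  letI := Fintype.ofFinite G
  set I := {c : ConjClasses G // ∃ g, ConjClasses.mk g = c ∧ ¬ p ∣ orderOf g} with hI
  have hex : ∀ i : I, ∃ g, ConjClasses.mk g = i.1 ∧ ¬ p ∣ orderOf g := fun i => i.2
  choose γ hγ hγp using hex
  haveI : Finite (ConjClasses G) := inferInstance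
  haveI : Finite I := Subtype.finite
  letI : Fintype I := Fintype.ofFinite I
  let L : (G → RF O) →ₗ[RF O] (I → RF O) := LinearMap.funLeft (RF O) (RF O) γ
  have hL : ∀ F i, L F i = F (γ i) := fun F i => rfl
  have hspan : Submodule.span (RF O) (L '' TF (RF O) G) = ⊤ := by
    rw [← Submodule.map_span, eq_top_iff, ← (Pi.basisFun (RF O) I).span_eq, Submodule.span_le]
    rintro _ ⟨i, rfl⟩
    obtain ⟨F, hF, hF'⟩ := ind_mem p O hO (γ i) (hγp i)
    refine ⟨F, hF, ?_⟩
    funext j
    rw [hL, hF' _ (hγp j), Pi.basisFun_apply, Pi.single_apply]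
    have h1 : IsConj (γ i) (γ j) ↔ j = i := by
      rw [← ConjClasses.mk_eq_mk_iff_isConj, hγ, hγ]
      exact ⟨fun h => Subtype.ext h.symm, fun h => by rw [h]⟩
    simp only [h1]
  obtain ⟨b, hb, hbs, hbl⟩ := exists_linearIndependent (RF O) (L '' TF (RF O) G)
  rw [hspan] at hbs
  let bs : Module.Basis b (RF O) (I → RF O) := Module.Basis.mk hbl (by
    rw [Subtype.range_coe, hbs])
  let e : I ≃ b := (Pi.basisFun (RF O) I).indexEquiv bs
  have h1 : ∀ i : I, ∃ t ∈ TF (RF O) G, L t = (e i).1 := fun i => hb (e i).2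
  choose t ht htL using h1
  have h2 : ∀ i : I, ∃ (n : ℕ) (ρ : Representation (RF O) G (Fin n → RF O)), ρ.IsIrreducible ∧
      t i = fun g => LinearMap.trace (RF O) _ (ρ g) := fun i => toFin (ht i)
  choose n ρ hρ hρt using h2
  refine ⟨n, ρ, hρ, fun i j hij => ?_⟩
  apply nonIso
  rw [← hρt, ← hρt]
  intro h
  apply hij
  apply e.injective
  apply Subtype.ext
  rw [← htL, ← htL, h]

end Pool.Agent.K3h25.CY
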